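import Pool.Agent.H697.IR.MultLeft

/-!
# d-to-1 games: the clustering coefficient is the exact threshold

The clustering coefficient `clus` of a bipartite graph is the mean value of
`|N(v) ∩ N(v')| / |N(v) ∪ N(v')|` for a random edge `(u, v)` and a random neighbour `v'` of `u`,
where `u` is on the side of the large alphabet.

1. If all games of a class have at most `M` parallel edges between any two vertices and clustering
   coefficient at least `γ`, then value at least `1 - ε` and value at most `δ` are told apart in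
   polynomial time on this class, for all `d`, all alphabets and all `ε`, `δ` with
   `M (2 ε + δ) < γ`.  So on simple games value `1` and value at most `δ` are told apart for all
   `δ < γ`.  If the clustering coefficient is at least `γ` from the side of the small alphabet (or
   from one of the two sides, which may depend on the game), this holds for `M (2 ε + d δ) < γ`.  So
   Khot's conjecture for such a class is false unless `P = NP`, if `γ > 0`.
2. This is sharp.  For `0 ≤ γ < 1` and `δ > γ` there is a `δ' > 0` such that for all `d`, all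
   alphabets and every `ε` the general problem with the parameters `ε, δ'` reduces in polynomial time
   to the problem with the parameters `ε, δ` for the simple games with clustering coefficient at least
   `γ`.
3. The games all of whose left vertices (the side of the large alphabet) have degree `r` have
   clustering coefficient at least `1 / r`.  For `δ > 1 / r` and every `d` there is a `δ' > 0` such
   that for all alphabets the general problem to tell value `1` from value at most `δ'` reduces in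
   polynomial time to the problem to tell value `1` from value at most `δ` for these games.
4. So Khot's d-to-1 conjecture for `d` is equivalent to the statement that for all `γ` in `(0, 1)`
   and all `δ > γ` some `R` makes it hard to tell value `1` from value less than `δ` for clustering
   coefficient at least `γ`, and to the statement that for all `r ≥ 2` and all `δ > 1 / r` some `R`
   makes this hard for the games with left degrees `r`.
5. For the simple games whose constraint graph belongs to a class `C` of graphs which is closed under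
   lifts (coverings) of girth greater than `g`, either 1. applies with `γ = 1 / (8 D²)`, namely if
   `|E| ≤ D |V|` on `C`, or the conjecture for the class is equivalent to the conjecture, namely if
   there is no such `D`.

The definitions used in the statement are in `Pool/Agent/H697/CL/Easy.lean` (`jac`, `clus`,
`Clustered`), `Pool/Agent/H697/IR/Defs.lean` (`mirror`), `Pool/Agent/H697/IR/MultDefs.lean` (`Mult`,
`SideClusteredM`), `Pool/Agent/H697/CL/Tup.lean` (`LeftReg`), `Pool/Agent/H697/CL/Real.lean` (`nb`,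
`nR`), `Pool/Agent/H697/LF/Bound.lean` (`GraphClass`, `LiftClosed`, `Sparse`, `On`),
`Pool/Agent/H697/LF/Lift.lean` (`graphOf`, `IsLift`),
`Pool/Agent/H697/Exp/Girth.lean` (`GirthGT`), `Pool/Agent/H697/LC/Hard.lean` (`Hard`, `Easy`),
`Pool/Agent/H697/LC/Defs.lean` (`IsGame`, `Sat`, `numSat`, `Yes`, `No`),
`Pool/Agent/H697/UG/Defs.lean` (`Game`, `Simple`, `cgraph`, `degL`),
`Pool/Agent/H697/UG/Complete.lean` (`edges`), `Pool/Agent/H697/Forest/Bip.lean` (`bip`) and
`Pool/Graph/R_seed8/NPC/` (`PolyTime`, `InNP`, `InP`, `InPP`, `bits`).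
-/

namespace Pool.Agent.Results.MP_62e2f2_lc.ClusteringThreshold

open Pool.Agent.H697 Pool.Agent.NPC Pool.Agent.H697.LC Pool.Agent.H697.LF Pool.Agent.H697.CL
open Pool.Agent.H697.IR (Mult SideClusteredM easy_of_multL easy_of_multS)
open Pool.Agent.H697.UG (Game)

/-- d-to-1 games of value less than `ε`. -/
def Below (d q₁ q₂ : ℕ) (ε : ℝ) (I : Game) : Prop :=
  IsGame d q₁ q₂ I ∧ ∀ (L : ℕ → Fin q₁) (M : ℕ → Fin q₂), (numSat I L M : ℝ) < ε * I.length

/-- Khot's d-to-1 conjecture for the games with the property `Cl`: for each `ε > 0` there is an `R`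
such that it is `NP`-hard to tell value `1` from value less than `ε` for the games with the property
`Cl` with the alphabets of size `d * R` and `R`. -/
def Khot (Cl : Game → Prop) (d : ℕ) : Prop :=
  ∀ ε : ℝ, 0 < ε → ∃ R : ℕ, 0 < R ∧ Hard Cl (Yes d (d * R) R 0) (Below d (d * R) R ε)

theorem below_no {d q₁ q₂ : ℕ} {ε : ℝ} {I : Game} (h : Below d q₁ q₂ ε I) : No d q₁ q₂ ε I :=
  ⟨h.1, fun L M => (h.2 L M).le⟩

theorem no_below {d q₁ q₂ : ℕ} {δ ε : ℝ} (hδ : δ < ε) {I : Game} (h : No d q₁ q₂ δ I) :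
    Below d q₁ q₂ ε I := by
  refine ⟨h.1, fun L M => lt_of_le_of_lt (h.2 L M) ?_⟩
  have : (0 : ℝ) < I.length := by exact_mod_cast List.length_pos_iff.2 h.1.1
  exact mul_lt_mul_of_pos_right hδ this

theorem khot_mono {Cl Cl' : Game → Prop} {d : ℕ} (hCl : ∀ I, Cl I → Cl' I) (h : Khot Cl d) :
    Khot Cl' d := fun ε hε => by
  obtain ⟨R, hR, hh⟩ := h ε hε
  exact ⟨R, hR, hh.mono hCl (fun _ h => h) fun _ h => h⟩

/-- Transfer of the conjecture. -/
theorem khot_transfer {Cl : Game → Prop} {d : ℕ} {δ δ' : ℝ} (hδ' : 0 < δ')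
    (h : ∃ δ₁ < δ, ∀ R : ℕ, 0 < R → Hard (fun _ => True) (Yes d (d * R) R 0) (No d (d * R) R δ') →
      Hard Cl (Yes d (d * R) R 0) (No d (d * R) R δ₁)) (hK : Khot (fun _ => True) d) :
    ∃ R : ℕ, 0 < R ∧ Hard Cl (Yes d (d * R) R 0) (Below d (d * R) R δ) := by
  obtain ⟨δ₁, hδ₁, h⟩ := h
  obtain ⟨R, hR, hh⟩ := hK δ' hδ'
  exact ⟨R, hR, (h R hR (hh.mono (fun _ h => h) (fun _ h => h) fun _ h => below_no h)).mono
    (fun _ h => h) (fun _ h => h) fun _ h => no_below hδ₁ h⟩

theorem khot_iff_clustered {d : ℕ} (hd : 0 < d) : Khot (fun _ => True) d ↔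
    ∀ γ δ : ℝ, 0 < γ → γ < 1 → γ < δ →
      ∃ R : ℕ, 0 < R ∧ Hard (Clustered γ) (Yes d (d * R) R 0) (Below d (d * R) R δ) := by
  constructor
  · intro hK γ δ h0 h1 h2
    obtain ⟨δ', hδ', h⟩ := hard_clus_LC h0.le h1 (show γ < (γ + δ) / 2 by linarith)
    exact khot_transfer hδ' ⟨(γ + δ) / 2, by linarith, fun R hR =>
      (h d (d * R) R 0 (Nat.mul_pos hd hR) hR).1⟩ hK
  · intro h ε hε
    obtain ⟨R, hR, hh⟩ := h (min ε 1 / 2) ε (by positivity)
      (by linarith [min_le_right ε 1]) (by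
        have := min_le_left ε 1
        have : 0 < min ε 1 := lt_min hε one_pos
        linarith)
    exact ⟨R, hR, hh.mono (fun _ _ => trivial) (fun _ h => h) fun _ h => h⟩

theorem khot_iff_leftReg {d : ℕ} (hd : 0 < d) : Khot (fun _ => True) d ↔
    ∀ r : ℕ, 2 ≤ r → ∀ δ : ℝ, 1 / r < δ →
      ∃ R : ℕ, 0 < R ∧ Hard (LeftReg r) (Yes d (d * R) R 0) (Below d (d * R) R δ) := by
  constructor
  · intro hK r hr δ h2
    obtain ⟨δ', hδ', h⟩ := hard_left_LC d (show 0 < r by omega)
      (show 1 / (r : ℝ) < (1 / r + δ) / 2 by linarith)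
    exact khot_transfer hδ' ⟨(1 / r + δ) / 2, by linarith, fun R hR =>
      (h (d * R) R (Nat.mul_pos hd hR) hR).1⟩ hK
  · intro h ε hε
    obtain ⟨n, hn⟩ := exists_nat_gt (1 / ε)
    have h1 : (1 : ℝ) / ((n + 2 : ℕ) : ℝ) < ε := by
      rw [div_lt_iff₀ hε] at hn
      rw [div_lt_iff₀ (by positivity)]
      push_cast
      nlinarith
    obtain ⟨R, hR, hh⟩ := h (n + 2) (by omega) ε h1
    exact ⟨R, hR, hh.mono (fun _ _ => trivial) (fun _ h => h) fun _ h => h⟩

theorem khot_of_dense {g : ℕ} {C : GraphClass} (hC : LiftClosed g C) (hs : ∀ D : ℕ, ¬ Sparse C D)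
    {d : ℕ} (hd : 0 < d) : Khot (On C) d ↔ Khot (fun _ => True) d := by
  refine ⟨khot_mono fun _ _ => trivial, fun hK ε hε => ?_⟩
  obtain ⟨R, hR, hh⟩ := hK (ε / 3) (by linarith)
  obtain ⟨D, hD⟩ := LC_lift_reduction d (Nat.mul_pos hd hR) hR (show ε / 3 < ε / 2 by linarith)
  exact ⟨R, hR, ((hD g C hC (hs D)).1 (hh.mono (fun _ h => h) (fun _ h => h)
    fun _ h => below_no h)).mono (fun _ h => h) (fun _ h => h) fun _ h =>
    no_below (by linarith) h⟩

/-- The conjecture for clustered games. -/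
theorem khot_collapse {Cl : Game → Prop} {M : ℕ} {γ : ℝ} (hγ : 0 < γ)
    (hCl : ∀ I, I ≠ [] → Cl I → SideClusteredM M γ I) {d : ℕ} (hd : 0 < d) (hK : Khot Cl d) :
    ∀ L : Set (List Bool), InNP L → InP L := by
  have hdr : (0 : ℝ) < d := by exact_mod_cast hd
  have hM : (0 : ℝ) ≤ M := by positivity
  obtain ⟨R, hR, hh⟩ := hK (γ / ((M + 1) * d)) (by positivity)
  refine hh.collapse ((easy_of_multS hCl hd (Nat.mul_pos hd hR) hR (ε := 0)
    (δ := γ / ((M + 1) * d)) ?_).mono (fun _ h => h) (fun _ h => h) fun _ h => below_no h)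
  have : (M : ℝ) * (2 * 0 + d * (γ / ((M + 1) * d))) = γ * (M / (M + 1)) := by
    field_simp
    ring
  rw [this]
  have h1 : (M : ℝ) / (M + 1) < 1 := by
    rw [div_lt_one (by positivity)]
    linarith
  nlinarith

/-- The clustering coefficient is the exact threshold. -/
theorem result :
    ((∀ (Cl : Game → Prop) (M : ℕ) (γ : ℝ), (∀ I, I ≠ [] → Cl I → Mult M I ∧ γ ≤ clus I) →
      ∀ (d q₁ q₂ : ℕ) (ε δ : ℝ), 0 < q₁ → 0 < q₂ → M * (2 * ε + δ) < γ →
        Easy Cl (Yes d q₁ q₂ ε) (No d q₁ q₂ δ)) ∧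
    ∀ (Cl : Game → Prop) (M : ℕ) (γ : ℝ), (∀ I, I ≠ [] → Cl I → SideClusteredM M γ I) →
      ∀ d : ℕ, 0 < d →
        (∀ (q₁ q₂ : ℕ) (ε δ : ℝ), 0 < q₁ → 0 < q₂ → M * (2 * ε + d * δ) < γ →
          Easy Cl (Yes d q₁ q₂ ε) (No d q₁ q₂ δ)) ∧
        (0 < γ → Khot Cl d → ∀ L : Set (List Bool), InNP L → InP L)) ∧
    (∀ γ δ : ℝ, 0 ≤ γ → γ < 1 → γ < δ → ∃ δ' : ℝ, 0 < δ' ∧
      ∀ (d q₁ q₂ : ℕ) (ε : ℝ), 0 < q₁ → 0 < q₂ →
        (Hard (fun _ => True) (Yes d q₁ q₂ ε) (No d q₁ q₂ δ') →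
          Hard (Clustered γ) (Yes d q₁ q₂ ε) (No d q₁ q₂ δ)) ∧
        (Easy (Clustered γ) (Yes d q₁ q₂ ε) (No d q₁ q₂ δ) →
          Easy (fun _ => True) (Yes d q₁ q₂ ε) (No d q₁ q₂ δ'))) ∧
    (∀ r : ℕ, 0 < r → (∀ I, I ≠ [] → LeftReg r I → Clustered (1 / r) I) ∧
      ∀ (d : ℕ) (δ : ℝ), 1 / r < δ → ∃ δ' : ℝ, 0 < δ' ∧ ∀ q₁ q₂ : ℕ, 0 < q₁ → 0 < q₂ →
        (Hard (fun _ => True) (Yes d q₁ q₂ 0) (No d q₁ q₂ δ') →
          Hard (LeftReg r) (Yes d q₁ q₂ 0) (No d q₁ q₂ δ)) ∧
        (Easy (LeftReg r) (Yes d q₁ q₂ 0) (No d q₁ q₂ δ) →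
          Easy (fun _ => True) (Yes d q₁ q₂ 0) (No d q₁ q₂ δ'))) ∧
    (∀ d : ℕ, 0 < d →
      (Khot (fun _ => True) d ↔ ∀ γ δ : ℝ, 0 < γ → γ < 1 → γ < δ →
        ∃ R : ℕ, 0 < R ∧ Hard (Clustered γ) (Yes d (d * R) R 0) (Below d (d * R) R δ)) ∧
      (Khot (fun _ => True) d ↔ ∀ r : ℕ, 2 ≤ r → ∀ δ : ℝ, 1 / r < δ →
        ∃ R : ℕ, 0 < R ∧ Hard (LeftReg r) (Yes d (d * R) R 0) (Below d (d * R) R δ))) ∧
    ∀ (g : ℕ) (C : GraphClass), LiftClosed g C →
      (∀ D : ℕ, 0 < D → Sparse C D → ∀ I, I ≠ [] → On C I → Clustered (1 / (8 * D ^ 2)) I) ∧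
      ((∀ D : ℕ, ¬ Sparse C D) → ∀ d : ℕ, 0 < d → (Khot (On C) d ↔ Khot (fun _ => True) d)) := by
  exact ⟨⟨fun Cl M γ hCl d q₁ q₂ ε δ hq₁ hq₂ h => easy_of_multL hCl d hq₁ hq₂ h,
    fun Cl M γ hCl d hd => ⟨fun q₁ q₂ ε δ hq₁ hq₂ h => easy_of_multS hCl hd hq₁ hq₂ h,
      fun hγ hK => khot_collapse hγ hCl hd hK⟩⟩, fun γ δ h0 h1 h => hard_clus_LC h0 h1 h,
    fun r hr => ⟨fun I hI h => clustered_of_leftReg hr hI h, fun d δ h => hard_left_LC d hr h⟩,
    fun d hd => ⟨khot_iff_clustered hd, khot_iff_leftReg hd⟩,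
    fun g C hC => ⟨fun D hD hs I hI hJ => clustered_of_sparse hD hs hI hJ,
      fun hs d hd => khot_of_dense hC hs hd⟩⟩

end Pool.Agent.Results.MP_62e2f2_lc.ClusteringThreshold
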