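import Pool.Agent.H697.RT.LCHard

/-!
# d-to-1 games with perfect completeness on lift-closed classes of graphs: the exact threshold

Let `C` be a class of graphs such that for every finite member `G` there is a number `g` such that
all finite lifts (coverings) of `G` of girth greater than `g` belong to `C`.  For a real number `t`
let `ThrC t C` be the condition

  `e(S) ≤ |S| + (1 - t) |E(G)|` for all finite `G` in `C` without isolated vertices and all sets `S`
  of vertices of `G`, where `e(S)` is the number of the edges with both ends in `S`.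

So the threshold of the class, the least upper bound `t*` of all such `t`, is the infimum of
`(|E(G)| - e(S) + |S|) / |E(G)|`.  For hereditary classes it is the infimum of `1` and of
`|V(G)| / |E(G)|`.

1. If `ThrC t C` holds and `δ < t`, then for all `d` and all alphabets the satisfiable d-to-1 games
   on `C` and the d-to-1 games on `C` of value at most `δ` are told apart in polynomial time.
2. If `ThrC t C` does not hold, then for every `d` there is a `δ > 0` such that for all alphabets the
   problem to tell value `1` from value at most `t` is hard for the d-to-1 games on `C`, if the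
   problem to tell value `1` from value at most `δ` is hard for all d-to-1 games, where hard means
   `NP`-hard under randomised reductions with one-sided error.  So Khot's d-to-1 conjecture (with
   randomised reductions) implies that for some alphabet it is hard to tell value `1` from value
   less than `t` for the games on `C`.
3. For the graphs with all degrees at most `D ≥ 2` and girth greater than `g` the threshold is
   `2 / D`.  For every `d` Khot's conjecture (with randomised reductions) is equivalent to the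
   statement that for all `D`, for these graphs, and all `t > 2 / D` it is hard to tell value `1`
   from value less than `t`, for some alphabet.

The first vertex of an edge is the one with the large alphabet (the side `W` of the problem), the
second vertex the one with the small alphabet (the side `V`).

The definitions used in the statement are in `Pool/Agent/H697/RT/UGHard.lean` (`LiftStable`,
`ThrC`), `Pool/Agent/H697/RT/Red.lean` (`Thr`), `Pool/Agent/H697/RT/RHard.lean` (`RHard`,
`InCoRP`), `Pool/Agent/H697/RT/Deg.lean` (`Hereditary`, `Deg`), `Pool/Agent/H697/LF/Bound.lean`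
(`GraphClass`, `On`), `Pool/Agent/H697/LF/Lift.lean` (`graphOf`, `IsLift`),
`Pool/Agent/H697/Exp/Girth.lean` (`GirthGT`), `Pool/Agent/H697/LC/Hard.lean` (`Hard`, `Easy`),
`Pool/Agent/H697/LC/Defs.lean` (`IsGame`, `Sat`, `numSat`, `Yes`, `No`),
`Pool/Agent/H697/UG/Defs.lean` (`Game`, `Simple`, `cgraph`), `Pool/Agent/H697/Forest/Bip.lean`
(`bip`) and `Pool/Graph/R_seed8/NPC/` (`PolyTime`, `InNP`, `InPP`, `bits`, `pairBits`).
-/

namespace Pool.Agent.Results.MP_62e2f2_lc.ExactThreshold

open Pool.Agent.H697 Pool.Agent.NPC Pool.Agent.H697.LC Pool.Agent.H697.LF Pool.Agent.H697.RT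
  Pool.Agent.H697.Exp
open Pool.Agent.H697.UG (Game)

/-- d-to-1 games of value less than `ε`. -/
def Below (d q₁ q₂ : ℕ) (ε : ℝ) (I : Game) : Prop :=
  IsGame d q₁ q₂ I ∧ ∀ (L : ℕ → Fin q₁) (M : ℕ → Fin q₂), (numSat I L M : ℝ) < ε * I.length

/-- Khot's d-to-1 conjecture for the games with the property `Cl`: for each `ε > 0` there is an `R`
such that it is `NP`-hard to tell value `1` from value less than `ε` for the games with the property
`Cl` with the alphabets of size `d * R` and `R`. -/
def Khot (Cl : Game → Prop) (d : ℕ) : Prop :=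
  ∀ ε : ℝ, 0 < ε → ∃ R : ℕ, 0 < R ∧ Hard Cl (Yes d (d * R) R 0) (Below d (d * R) R ε)

/-- Khot's d-to-1 conjecture for the games with the property `Cl`, with hardness under randomised
reductions. -/
def RKhot (Cl : Game → Prop) (d : ℕ) : Prop :=
  ∀ ε : ℝ, 0 < ε → ∃ R : ℕ, 0 < R ∧ RHard Cl (Yes d (d * R) R 0) (Below d (d * R) R ε)

theorem below_no {d q₁ q₂ : ℕ} {ε : ℝ} {I : Game} (h : Below d q₁ q₂ ε I) : No d q₁ q₂ ε I :=
  ⟨h.1, fun L M => (h.2 L M).le⟩

theorem no_below {d q₁ q₂ : ℕ} {δ ε : ℝ} (hδ : δ < ε) {I : Game} (h : No d q₁ q₂ δ I) :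
    Below d q₁ q₂ ε I := by
  refine ⟨h.1, fun L M => lt_of_le_of_lt (h.2 L M) ?_⟩
  have : (0 : ℝ) < I.length := by exact_mod_cast List.length_pos_iff.2 h.1.1
  exact mul_lt_mul_of_pos_right hδ this

theorem hard_below {C : GraphClass} (hC : LiftStable C) {t : ℝ} (ht : ¬ ThrC t C) {d : ℕ}
    (hd : 0 < d) (hK : RKhot (fun _ => True) d) :
    ∃ R : ℕ, 0 < R ∧ RHard (On C) (Yes d (d * R) R 0) (Below d (d * R) R t) := by
  obtain ⟨t', ht', hn⟩ := exists_lt_thr ht
  obtain ⟨δ, hδ, h⟩ := rhard_class_LC hC hn hd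
  obtain ⟨R, hR, hh⟩ := hK δ hδ
  refine ⟨R, hR, (h (d * R) R (Nat.mul_pos hd hR) hR (hh.mono (fun _ h => h) (fun _ h => h)
    fun _ h => below_no h)).mono (fun _ h => h) (fun _ h => h) fun _ h => no_below ht' h⟩

/-- The exact threshold of a lift-closed class. -/
theorem result :
    (∀ C : GraphClass, LiftStable C → ∀ t : ℝ,
      (ThrC t C → ∀ (d q₁ q₂ : ℕ) (δ : ℝ), 0 < q₁ → 0 < q₂ → δ < t →
        Easy (On C) (Yes d q₁ q₂ 0) (No d q₁ q₂ δ)) ∧
      (¬ ThrC t C → ∀ d : ℕ, 0 < d →
        (∃ δ : ℝ, 0 < δ ∧ ∀ q₁ q₂ : ℕ, 0 < q₁ → 0 < q₂ →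
          RHard (fun _ => True) (Yes d q₁ q₂ 0) (No d q₁ q₂ δ) →
            RHard (On C) (Yes d q₁ q₂ 0) (No d q₁ q₂ t)) ∧
        (RKhot (fun _ => True) d →
          ∃ R : ℕ, 0 < R ∧ RHard (On C) (Yes d (d * R) R 0) (Below d (d * R) R t))) ∧
      (Hereditary C → t ≤ 1 → (ThrC t C ↔ ∀ (V : Type) [Finite V] (G : SimpleGraph V), C V G →
        t * G.edgeSet.ncard ≤ Nat.card V))) ∧
    (∀ D g : ℕ, 2 ≤ D → LiftStable (Deg D g) ∧ ∀ t : ℝ, ThrC t (Deg D g) ↔ t ≤ 2 / D) ∧
    (∀ g d : ℕ, 0 < d → (RKhot (fun _ => True) d ↔ ∀ D : ℕ, 2 ≤ D → ∀ t : ℝ, 2 / D < t →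
      ∃ R : ℕ, 0 < R ∧ RHard (On (Deg D g)) (Yes d (d * R) R 0) (Below d (d * R) R t))) ∧
    (∀ d : ℕ, Khot (fun _ => True) d → RKhot (fun _ => True) d) ∧
    ∀ (Cl Y N : Game → Prop), RHard Cl Y N → Easy Cl Y N →
      ∀ L : Set (List Bool), InNP L → InCoRP L := by
  refine ⟨fun C hC t => ⟨fun h d q₁ q₂ δ hq₁ hq₂ hδ => easy_perfect d hq₁ hq₂ h hδ, fun h d hd =>
    ⟨rhard_class_LC hC h hd, hard_below hC h hd⟩, fun hH ht => thrC_iff hH ht⟩,
    fun D g hD => ⟨liftStable_Deg D g, fun t => ⟨fun h => ?_, fun h => thrC_Deg hD g h⟩⟩,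
    fun g d hd => ⟨fun hK D hD t ht => ?_, fun h ε hε => ?_⟩, fun d h ε hε => ?_,
    fun Cl Y N h h' => h.collapse h'⟩
  · by_contra hcon
    exact not_thrC_Deg hD g (not_le.1 hcon) h
  · exact hard_below (liftStable_Deg D g) (not_thrC_Deg hD g ht) hd hK
  · obtain ⟨n, hn⟩ := exists_nat_gt (2 / ε)
    have hn2 : (2 : ℝ) / ((n + 2 : ℕ) : ℝ) < ε := by
      rw [div_lt_iff₀ hε] at hn
      rw [div_lt_iff₀ (by positivity)]
      push_cast
      nlinarith
    obtain ⟨R, hR, h1⟩ := h (n + 2) (by omega) ε hn2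
    exact ⟨R, hR, h1.mono (fun _ _ => trivial) (fun _ h => h) fun _ h => h⟩
  · obtain ⟨R, hR, h1⟩ := h ε hε
    exact ⟨R, hR, rhard_of_hard h1⟩

end Pool.Agent.Results.MP_62e2f2_lc.ExactThreshold
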