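import Pool.Agent.H697.IR.Mult
import Pool.Agent.H697.IR.Reg

/-!
# Khot's d-to-1 conjecture on hereditary classes of constraint graphs: a complete dichotomy

For a finite family `H` of finite graphs consider the d-to-1 games with at most `M` parallel edges
between any two vertices whose constraint graph has no induced subgraph `H i`.  There is no
condition on the degrees.

* If some `H i` is a forest, then there is a `γ > 0`, which depends neither on `d` nor on the
  alphabets nor on `M`, such that value at least `1 - ε` and value at most `δ` are told apart in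
  polynomial time on this class for all `ε`, `δ` with `M (2 ε + d δ) < γ`.  So for this class the
  d-to-1 conjecture is false for every `d` unless `P = NP`, even with imperfect completeness.
* If no `H i` is a forest, then for every `d` the d-to-1 conjecture for this class is equivalent to
  the d-to-1 conjecture, even for regular constraint graphs without parallel edges.  More precisely,
  for all alphabets and all `δ < δ'` there is a `D`, the same for all families `H` without forests,
  such that the general problem to tell value `1` from value at most `δ` reduces in polynomial time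
  to the problem to tell value `1` from value at most `δ'` for the simple games of this class with a
  `D`-regular constraint graph.

The first vertex of an edge is the one with the large alphabet (the side `W` of the problem), the
second vertex the one with the small alphabet (the side `V`).

The proof of the first part: in a bipartite graph without an induced forest `H`, the clustering
coefficient (the mean value of `|N(v) ∩ N(v')| / |N(v) ∪ N(v')|` for a random edge `(u, v)` and a
random neighbour `v'` of `u`) is at least `γ` for one of the two choices of the left side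
(`clus_of_noInduced` in `Pool/Agent/H697/IR/Sides.lean`), and a labelling from random leaders
satisfies many edges if the coefficient is large.

The definitions used in the statement are in `Pool/Agent/H697/IR/Defs.lean` (`NoInd`),
`Pool/Agent/H697/IR/RegDefs.lean` (`Reg`, `RegInd`), `Pool/Agent/H697/IR/MultDefs.lean` (`Mult`,
`NoIndM`), `Pool/Agent/H697/LC/Hard.lean` (`Hard`,
`Easy`), `Pool/Agent/H697/LC/Defs.lean` (`IsGame`, `Sat`, `numSat`, `Yes`, `No`),
`Pool/Agent/H697/UG/Defs.lean` (`Game`, `Simple`, `cgraph`, `degL`, `degR`),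
`Pool/Agent/H697/Forest/Bip.lean` (`bip`) and `Pool/Graph/R_seed8/NPC/` (`PolyTime`, `InNP`,
`InP`, `InPP`, `bits`).
-/

namespace Pool.Agent.Results.MP_62e2f2_lc.ForbiddenSubgraphs

open Pool.Agent.NPC Pool.Agent.H697.LC
open Pool.Agent.H697.UG (Game)
open Pool.Agent.H697.IR (NoIndM RegInd sideClusteredM_of_noIndM easy_mult_LC regular_LC
  noIndM_of_noInd)

/-- d-to-1 games of value less than `ε`. -/
def Below (d q₁ q₂ : ℕ) (ε : ℝ) (I : Game) : Prop :=
  IsGame d q₁ q₂ I ∧ ∀ (L : ℕ → Fin q₁) (M : ℕ → Fin q₂), (numSat I L M : ℝ) < ε * I.length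

/-- Khot's d-to-1 conjecture for the games with the property `Cl`: for each `ε > 0` there is an `R`
such that it is `NP`-hard to tell value `1` from value less than `ε` for the games with the property
`Cl` with the alphabets of size `d * R` and `R`. -/
def Khot (Cl : Game → Prop) (d : ℕ) : Prop :=
  ∀ ε : ℝ, 0 < ε → ∃ R : ℕ, 0 < R ∧ Hard Cl (Yes d (d * R) R 0) (Below d (d * R) R ε)

theorem below_no {d q₁ q₂ : ℕ} {ε : ℝ} {I : Game} (h : Below d q₁ q₂ ε I) : No d q₁ q₂ ε I :=
  ⟨h.1, fun L M => (h.2 L M).le⟩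

theorem no_below {d q₁ q₂ : ℕ} {δ ε : ℝ} (hδ : δ < ε) {I : Game} (h : No d q₁ q₂ δ I) :
    Below d q₁ q₂ ε I := by
  refine ⟨h.1, fun L M => lt_of_le_of_lt (h.2 L M) ?_⟩
  have : (0 : ℝ) < I.length := by exact_mod_cast List.length_pos_iff.2 h.1.1
  exact mul_lt_mul_of_pos_right hδ this

theorem khot_mono {Cl Cl' : Game → Prop} {d : ℕ} (hCl : ∀ I, Cl I → Cl' I) (h : Khot Cl d) :
    Khot Cl' d := fun ε hε => by
  obtain ⟨R, hR, hh⟩ := h ε hε
  exact ⟨R, hR, hh.mono hCl (fun _ h => h) fun _ h => h⟩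

/-- The dichotomy. -/
theorem result :
    (∀ {ι : Type} [Finite ι] (V : ι → Type) [∀ i, Finite (V i)] (H : ∀ i, SimpleGraph (V i)),
      (∀ i, (H i).IsAcyclic → ∃ γ : ℝ, 0 < γ ∧ ∀ M d : ℕ, 0 < d →
        (∀ (q₁ q₂ : ℕ) (ε δ : ℝ), 0 < q₁ → 0 < q₂ → M * (2 * ε + d * δ) < γ →
          Easy (NoIndM H M) (Yes d q₁ q₂ ε) (No d q₁ q₂ δ)) ∧
        (Khot (NoIndM H M) d → ∀ L : Set (List Bool), InNP L → InP L)) ∧
      ((∀ i, ¬ (H i).IsAcyclic) → ∀ d : ℕ, 0 < d →
        (∀ M : ℕ, 0 < M → (Khot (NoIndM H M) d ↔ Khot (fun _ => True) d)) ∧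
        (Khot (fun _ => True) d ↔ ∀ ε : ℝ, 0 < ε → ∃ R D : ℕ, 0 < R ∧
          Hard (RegInd H D) (Yes d (d * R) R 0) (Below d (d * R) R ε)))) ∧
    ∀ (d q₁ q₂ : ℕ) (δ δ' : ℝ), 0 < q₁ → 0 < q₂ → δ < δ' → ∃ D : ℕ,
      ∀ {ι : Type} [Finite ι] (V : ι → Type) (H : ∀ i, SimpleGraph (V i)),
        (∀ i, ¬ (H i).IsAcyclic) →
          (Hard (fun _ => True) (Yes d q₁ q₂ 0) (No d q₁ q₂ δ) →
            Hard (RegInd H D) (Yes d q₁ q₂ 0) (No d q₁ q₂ δ')) ∧
          (Easy (RegInd H D) (Yes d q₁ q₂ 0) (No d q₁ q₂ δ') →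
            Easy (fun _ => True) (Yes d q₁ q₂ 0) (No d q₁ q₂ δ)) := by
  refine ⟨?_, fun d q₁ q₂ δ δ' hq₁ hq₂ h => regular_LC d hq₁ hq₂ h⟩
  intro ι _ V _ H
  constructor
  · intro i hi
    obtain ⟨γ, hγ, hcl⟩ := sideClusteredM_of_noIndM H i hi
    have heasy : ∀ M d : ℕ, 0 < d → ∀ (q₁ q₂ : ℕ) (ε δ : ℝ), 0 < q₁ → 0 < q₂ →
        M * (2 * ε + d * δ) < γ → Easy (NoIndM H M) (Yes d q₁ q₂ ε) (No d q₁ q₂ δ) := by
      intro M d hd q₁ q₂ ε δ hq₁ hq₂ h
      obtain ⟨P, hP, hsep⟩ := easy_mult_LC hd hq₁ hq₂ h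
      exact ⟨P, hP, fun I hI => ⟨fun hy => (hsep I (hcl M I hy.1.1 hI)).1 hy,
        fun hn => (hsep I (hcl M I hn.1.1 hI)).2 hn⟩⟩
    refine ⟨γ, hγ, fun M d hd => ⟨heasy M d hd, fun hKh => ?_⟩⟩
    have hdr : (0 : ℝ) < d := by exact_mod_cast hd
    have hM : (0 : ℝ) ≤ M := by positivity
    obtain ⟨R, hR, hhard⟩ := hKh (γ / ((M + 1) * d)) (by positivity)
    refine hhard.collapse ((heasy M d hd (d * R) R 0 (γ / ((M + 1) * d))
      (Nat.mul_pos hd hR) hR ?_).mono
      (fun _ h => h) (fun _ h => h) (fun _ h => below_no h))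
    have : (M : ℝ) * (2 * 0 + d * (γ / ((M + 1) * d))) = γ * (M / (M + 1)) := by
      field_simp
      ring
    rw [this]
    have h1 : (M : ℝ) / (M + 1) < 1 := by
      rw [div_lt_one (by positivity)]
      linarith
    nlinarith
  · intro hH d hd
    have hreg : Khot (fun _ => True) d → ∀ ε : ℝ, 0 < ε → ∃ R D : ℕ, 0 < R ∧
        Hard (RegInd H D) (Yes d (d * R) R 0) (Below d (d * R) R ε) := by
      intro hU ε hε
      obtain ⟨R, hR, h⟩ := hU (ε / 3) (by linarith)
      obtain ⟨D, hD⟩ := regular_LC d (Nat.mul_pos hd hR) hR (show ε / 3 < ε / 2 by linarith)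
      exact ⟨R, D, hR, ((hD V H hH).1 (h.mono (fun _ h => h) (fun _ h => h)
        fun _ h => below_no h)).mono (fun _ h => h) (fun _ h => h)
        fun _ h => no_below (by linarith) h⟩
    refine ⟨fun M hM => ⟨khot_mono fun _ _ => trivial, fun h ε hε => ?_⟩,
      ⟨hreg, fun h ε hε => ?_⟩⟩
    · obtain ⟨R, D, hR, hh⟩ := hreg h ε hε
      exact ⟨R, hR, hh.mono (fun _ h => noIndM_of_noInd h.1 hM) (fun _ h => h) fun _ h => h⟩
    · obtain ⟨R, D, hR, hh⟩ := h ε hε
      exact ⟨R, hR, hh.mono (fun _ _ => trivial) (fun _ h => h) fun _ h => h⟩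

end Pool.Agent.Results.MP_62e2f2_lc.ForbiddenSubgraphs
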