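import Pool.Agent.H698.HF.Dto

set_option autoImplicit false

/-!
# Khot's d-to-1 conjecture for circuits that compute with unknown inputs

A d-to-1 game is given by its set of constraints (two vertices and a map of the labels).  The
circuits read, for each possible constraint, whether it is known to be present, known to be absent
or unknown.  The gates have values in an ordered set `D` of states of knowledge and apply arbitrary
functions `D → D → D` that respect the order (more knowledge about the arguments gives more
knowledge about the value); `D` is any partially ordered set in which the elements below a given one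
form a chain of real numbers.

* If `D` is the flat order with the values `unknown`, `known true` and `known false` then these are
  the hazard-free (Kleene, three-valued) circuits with arbitrary binary gates, each evaluated by its
  most precise extension; negations are allowed.
* If `D` is the flat order over an arbitrary set `A` (labels, vertices, words, ...) the gates may
  apply arbitrary functions `A → A → A` as soon as the arguments are known.
* If `D = ℝ` then these are the monotone real circuits.

For all these models at once: for all `d ≥ 2` and `ε > 0` there is a number `R` of labels such that
randomised circuits need size `2 ^ (N ^ (1/14)) - 1` to raise the alarm whenever the constraints of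
a game of value less than `ε` are known to be present (further constraints cannot make all of them
satisfiable) and not to raise it on the completely known games of value one.

Proof. Feed the circuit with the games whose absent constraints are declared unknown. All gate
values are then below the value for the set of all constraints, so that they lie in a chain, in
which the gate is simulated by one monotone real gate; no gates are lost. Then the lower bound for
monotone real circuits of `Pool.Graph.R_seed8.H589R3.DT` applies.
-/

namespace Pool.Agent.Results.MP_62e2f2_lc.UnknownInputCircuits

open Pool.Agent.H698.HF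
open H589DT (DGame DYes DNo)

/-- (1) For all `d ≥ 2` and `ε > 0` there are `R` and `N0` such that for all `N ≥ N0` and every
tree-like order `D` of states of knowledge: every randomised circuit over `D` that solves the gap
problem for d-to-1 games with `N` left and `N` right vertices, `R` left labels and `d R` right
labels (`SolvesD ε`) has a member with at least `2 ^ (N ^ (1/14)) - 1` gates. (2) If `ε ≤ 1` then
some function that respects the knowledge about the constraints is one if a game of value less than
`ε` is known to be present, and zero on all completely known games of value one. (3) The real
numbers and all flat orders are tree-like, and the most precise extension of a function to a flat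
order is nondecreasing, so that it is allowed at the gates. -/
theorem result :
    (∀ d : ℕ, 2 ≤ d → ∀ ε : ℝ, 0 < ε → ∃ R : ℕ, 1 ≤ R ∧ ∃ N0 : ℕ, ∀ N : ℕ, N0 ≤ N →
      ∀ (D : Type) [PartialOrder D], TreeLike D →
      ∀ (Ω : Type) [Fintype Ω] [Nonempty Ω] (l : Ω → List (Know (DCon (Fin N) (Fin N) d R) → D)),
      (∀ ω, Circ (l ω)) → SolvesD ε l →
      ∃ ω, (2 : ℝ) ^ ((N : ℝ) ^ (1 / 14 : ℝ)) ≤ (l ω).length + 1) ∧
    (∀ ε : ℝ, ε ≤ 1 → ∀ (V W : Type) [Fintype V] [Fintype W] (d R : ℕ),
      ∃ F : Know (DCon V W d R) → ℝ, (∀ P Q, Le P Q → F P ≤ F Q) ∧
      ∀ I : DGame V W d R, (DNo ε I → F (truths (DHas I)) = 1) ∧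
        (DYes I → F (full (DHas I)) = 0)) ∧
    TreeLike ℝ ∧ ∀ A : Type, TreeLike (Flat A) ∧ (Nonempty A → ∀ (f : A → A → A)
      (x x' y y' : Flat A), x ≤ x' → y ≤ y' → Flat.ext f x y ≤ Flat.ext f x' y') := by
  refine ⟨fun d hd ε hε => ?_, fun ε hε V W _ _ d R => existsD ε hε d R, treeLike_real,
    fun A => ⟨Flat.treeLike, fun hA f x x' y y' hx hy => Flat.ext_mono' f x x' y y' hx hy⟩⟩
  obtain ⟨R, hR, N0, h⟩ := H589DT.dto1 d hd ε hε
  exact ⟨R, hR, N0, fun N hN D _ hD Ω _ _ l hl hs => lowerD hD (h N hN) l hl hs⟩

end Pool.Agent.Results.MP_62e2f2_lc.UnknownInputCircuits
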